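import Pool.Agent.H24.Gsm5

namespace Pool.Agent.Results.MP_773080_lc.NotPrincipal

open Pool.Agent.H24.Gsm

theorem result :
    (∀ (Y : Type) [Finite Y] (A : Oca Y), ∃ (X : Type) (_ : Finite X) (B : Oca X),
      B.acc = Set.univ ∧ ¬ InG A.lang X B.lang) ∧
    (∀ (Y : Type) [Finite Y] (g : ContextFreeGrammar Y), IsLinear g →
      ∃ (X : Type) (_ : Finite X) (h : ContextFreeGrammar X),
        IsLinear h ∧ ¬ InG g.language X h.language) := by
  refine ⟨fun Y _ A => ⟨_, inferInstance, ocaB _, rfl, roc_main A⟩, fun Y _ g hg => ?_⟩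
  obtain ⟨k, hk⟩ := lin_main g hg
  exact ⟨_, inferInstance, gramL k, gramL_linear, hk⟩

end Pool.Agent.Results.MP_773080_lc.NotPrincipal
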